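import Pool.Agent.H121.Z987.Iface

/-! Resampling one coordinate, the iteration lemma. -/

set_option autoImplicit false

open scoped BigOperators InnerProductSpace Topology ENNReal
open Filter MeasureTheory

namespace Pool.Agent.H121.Z987

/-! ### Resampling one coordinate -/

theorem update_meas {ι : Type} [DecidableEq ι] (x : ι) :
    Measurable (fun p : (ι → ℝ) × ℝ => Function.update p.1 x p.2) := by
  refine measurable_pi_lambda _ fun i => ?_
  by_cases h : i = x
  · subst h
    simpa using measurable_snd
  · simp only [Function.update_of_ne h]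
    exact (measurable_pi_apply i).comp measurable_fst

theorem resample {ι : Type} (μ : Measure ℝ) [IsProbabilityMeasure μ] [DecidableEq ι] (x : ι) :
    ((Measure.infinitePi fun _ : ι => μ).prod μ).map
      (fun p : (ι → ℝ) × ℝ => Function.update p.1 x p.2) = Measure.infinitePi fun _ : ι => μ := by
  refine Measure.eq_infinitePi _ fun s t ht => ?_
  rw [Measure.map_apply (update_meas x) (MeasurableSet.pi s.countable_toSet fun i _ => ht i)]
  by_cases hx : x ∈ s
  · have h1 : (fun p : (ι → ℝ) × ℝ => Function.update p.1 x p.2) ⁻¹' (Set.pi s t) =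
        (Set.pi (s.erase x : Finset ι) t) ×ˢ (t x) := by
      ext p
      simp only [Set.mem_preimage, Set.mem_pi, Finset.mem_coe, Set.mem_prod, Finset.mem_erase]
      constructor
      · intro h
        refine ⟨fun i hi => ?_, ?_⟩
        · have := h i hi.2
          rwa [Function.update_of_ne hi.1] at this
        · have := h x hx
          rwa [Function.update_self] at this
      · rintro ⟨h1, h2⟩ i hi
        by_cases h : i = x
        · subst h
          rwa [Function.update_self]
        · rw [Function.update_of_ne h]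
          exact h1 i ⟨h, hi⟩
    rw [h1, Measure.prod_prod, Measure.infinitePi_pi _ (fun i _ => ht i), mul_comm,
      Finset.mul_prod_erase s (fun i => μ (t i)) hx]
  · have h1 : (fun p : (ι → ℝ) × ℝ => Function.update p.1 x p.2) ⁻¹' (Set.pi s t) =
        (Set.pi s t) ×ˢ Set.univ := by
      ext p
      simp only [Set.mem_preimage, Set.mem_pi, Finset.mem_coe, Set.mem_prod, Set.mem_univ,
        and_true]
      refine forall₂_congr fun i hi => ?_
      have h : i ≠ x := fun h => hx (h ▸ hi)
      rw [Function.update_of_ne h]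
    rw [h1, Measure.prod_prod, Measure.infinitePi_pi _ (fun i _ => ht i), measure_univ, mul_one]

theorem lint_resample {ι : Type} (μ : Measure ℝ) [IsProbabilityMeasure μ] [DecidableEq ι] (x : ι)
    (f : (ι → ℝ) → ℝ≥0∞) (hf : Measurable f) :
    ∫⁻ ω, f ω ∂(Measure.infinitePi fun _ : ι => μ) =
      ∫⁻ ω, ∫⁻ v, f (Function.update ω x v) ∂μ ∂(Measure.infinitePi fun _ : ι => μ) := by
  conv_lhs => rw [← resample μ x]
  rw [lintegral_map hf (update_meas x)]
  exact lintegral_prod (fun p : (ι → ℝ) × ℝ => f (Function.update p.1 x p.2))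
    (hf.comp (update_meas x)).aemeasurable

/-! ### The iteration lemma -/

theorem iter {ι : Type} (K : ι → ι → ℝ≥0∞) (hr : ∀ x, ∑' u, K x u ≤ 2⁻¹)
    (hc : ∀ u, ∑' x, K x u ≤ 2⁻¹) (f : ι → ℝ≥0∞) (M : ℝ≥0∞) (hM : M ≠ ∞) (hf : ∀ x, f x ≤ M)
    (A : ℝ≥0∞) (g : ι → ℝ≥0∞) (hg : ∑' x, g x ≤ A) (h : ∀ x, f x ≤ g x + ∑' u, K x u * f u) :
    ∑' x, f x ≤ 2 * A := by
  have key : ∀ n : ℕ, ∀ (q : ι → ℝ≥0∞) (b : ℝ≥0∞), (∀ x, q x ≤ b) →
      ∑' x, q x * f x ≤ 2 * A * b + (2⁻¹) ^ n * (M * ∑' x, q x) := by
    intro n
    induction n with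
    | zero =>
      intro q b hq
      rw [pow_zero, one_mul, ← ENNReal.tsum_mul_left]
      refine le_trans (ENNReal.tsum_le_tsum fun x => ?_) le_add_self
      rw [mul_comm M]
      gcongr
      exact hf x
    | succ n ih =>
      intro q b hq
      obtain ⟨q', hq'⟩ : ∃ q' : ι → ℝ≥0∞, q' = fun u => ∑' x, q x * K x u := ⟨_, rfl⟩
      have h1 : ∀ u, q' u ≤ b * 2⁻¹ := by
        intro u
        rw [hq']
        calc ∑' x, q x * K x u ≤ ∑' x, b * K x u := by
              refine ENNReal.tsum_le_tsum fun x => ?_
              gcongr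
              exact hq x
          _ = b * ∑' x, K x u := ENNReal.tsum_mul_left
          _ ≤ b * 2⁻¹ := by
              gcongr
              exact hc u
      have h2 : ∑' u, q' u ≤ 2⁻¹ * ∑' x, q x := by
        rw [hq']
        calc ∑' u, ∑' x, q x * K x u = ∑' x, ∑' u, q x * K x u := ENNReal.tsum_comm
          _ = ∑' x, q x * ∑' u, K x u := by
              refine tsum_congr fun x => ?_
              exact ENNReal.tsum_mul_left
          _ ≤ ∑' x, q x * 2⁻¹ := by
              refine ENNReal.tsum_le_tsum fun x => ?_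
              gcongr
              exact hr x
          _ = 2⁻¹ * ∑' x, q x := by
              rw [ENNReal.tsum_mul_right, mul_comm]
      have h3 := ih q' (b * 2⁻¹) h1
      have h4 : ∑' x, q x * f x ≤ A * b + ∑' u, q' u * f u := by
        calc ∑' x, q x * f x ≤ ∑' x, (g x * b + q x * ∑' u, K x u * f u) := by
              refine ENNReal.tsum_le_tsum fun x => ?_
              calc q x * f x ≤ q x * (g x + ∑' u, K x u * f u) := by
                    gcongr
                    exact h x
                _ = q x * g x + q x * ∑' u, K x u * f u := mul_add _ _ _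
                _ ≤ b * g x + q x * ∑' u, K x u * f u := by
                    gcongr
                    exact hq x
                _ = _ := by rw [mul_comm b]
          _ = (∑' x, g x) * b + ∑' x, q x * ∑' u, K x u * f u := by
              rw [ENNReal.tsum_add, ENNReal.tsum_mul_right]
          _ ≤ A * b + ∑' u, q' u * f u := by
              refine add_le_add (by gcongr) (le_of_eq ?_)
              have e1 : ∀ x, q x * ∑' u, K x u * f u = ∑' u, q x * K x u * f u := by
                intro x
                rw [← ENNReal.tsum_mul_left]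
                exact tsum_congr fun u => (mul_assoc _ _ _).symm
              simp only [e1]
              rw [ENNReal.tsum_comm, hq']
              exact tsum_congr fun u => ENNReal.tsum_mul_right
      refine h4.trans ?_
      calc A * b + ∑' u, q' u * f u ≤
            A * b + (2 * A * (b * 2⁻¹) + 2⁻¹ ^ n * (M * (2⁻¹ * ∑' x, q x))) := by
              gcongr
              exact h3.trans (by gcongr)
        _ = 2 * A * b + 2⁻¹ ^ (n + 1) * (M * ∑' x, q x) := by
              have e1 : 2 * A * (b * 2⁻¹) = A * b := by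
                have : (2 : ℝ≥0∞) * 2⁻¹ = 1 := ENNReal.mul_inv_cancel (by norm_num) (by norm_num)
                calc 2 * A * (b * 2⁻¹) = (2 * 2⁻¹) * (A * b) := by ring
                  _ = A * b := by rw [this, one_mul]
              rw [e1, ← add_assoc]
              congr 1
              · ring
              · rw [pow_succ]; ring
  rw [ENNReal.tsum_eq_iSup_sum]
  refine iSup_le fun F => ?_
  classical
  have h5 : ∀ n : ℕ, ∑ x ∈ F, f x ≤ 2 * A + (2⁻¹) ^ n * (M * F.card) := by
    intro n
    have h6 := key n (fun x => if x ∈ F then 1 else 0) 1 (fun x => by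
      split_ifs <;> simp)
    have e1 : ∑' x, (if x ∈ F then (1 : ℝ≥0∞) else 0) * f x = ∑ x ∈ F, f x := by
      rw [tsum_eq_sum (s := F) (fun x hx => by rw [if_neg hx, zero_mul])]
      exact Finset.sum_congr rfl fun x hx => by rw [if_pos hx, one_mul]
    have e2 : ∑' x, (if x ∈ F then (1 : ℝ≥0∞) else 0) = F.card := by
      rw [tsum_eq_sum (s := F) (fun x hx => by rw [if_neg hx])]
      rw [Finset.sum_congr rfl fun x hx => if_pos hx, Finset.sum_const, nsmul_eq_mul, mul_one]
    rw [e1, e2, mul_one] at h6
    exact h6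
  have h7 : Tendsto (fun n : ℕ => 2 * A + (2⁻¹ : ℝ≥0∞) ^ n * (M * F.card)) atTop
      (𝓝 (2 * A + 0 * (M * F.card))) := by
    refine Tendsto.const_add _ ?_
    refine ENNReal.Tendsto.mul_const ?_ (Or.inr (ENNReal.mul_ne_top hM (by simp)))
    exact ENNReal.tendsto_pow_atTop_nhds_zero_of_lt_one (by norm_num)
  rw [zero_mul, add_zero] at h7
  exact ge_of_tendsto' h7 h5

/-- subadditivity of `t ↦ t^s` -/
theorem rpow_tsum_le {ι : Type} (a : ι → ℝ≥0∞) (s : ℝ) (hs : 0 < s) (hs1 : s ≤ 1) :
    (∑' x, a x) ^ s ≤ ∑' x, a x ^ s := by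
  have h1 : ∀ F : Finset ι, (∑ x ∈ F, a x) ^ s ≤ ∑ x ∈ F, a x ^ s := by
    classical
    intro F
    induction F using Finset.induction_on with
    | empty => simp [hs]
    | insert x F hx ih =>
      rw [Finset.sum_insert hx, Finset.sum_insert hx]
      refine (ENNReal.rpow_add_le_add_rpow _ _ hs.le hs1).trans ?_
      gcongr
  have h2 : Tendsto (fun F : Finset ι => (∑ x ∈ F, a x) ^ s) atTop (𝓝 ((∑' x, a x) ^ s)) :=
    (ENNReal.continuous_rpow_const.tendsto _).comp ENNReal.summable.hasSum
  refine le_of_tendsto' h2 fun F => (h1 F).trans (ENNReal.sum_le_tsum F)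

end Pool.Agent.H121.Z987
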