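import Pool.Agent.H121.Z987.Op

/-! Fractional moments. -/

set_option autoImplicit false

open scoped BigOperators InnerProductSpace Topology ENNReal
open Filter MeasureTheory

namespace Pool.Agent.H121.Z987

open Pool.Agent.Y662.TR
open Pool.Agent.TH369.AN (Rz rz_eq rz_uniq rz_norm)
open Pool.Agent.TH369.MU (SpM ep zk)
open Pool.Agent.TH369.MU.PO2 (ep_pos ep_tendsto)
open Pool.Agent.H987.Z
open Pool.Agent.H304.Z987 (mul_summable' tsum_dv' Gr_symm Gr_im Gr_le rz_sub' Gr_sub_z_le)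

variable {ι : Type}

theorem enorm_rpow (g : ℂ) (s : ℝ) (hs : 0 ≤ s) : ‖g‖ₑ ^ s = ENNReal.ofReal (‖g‖ ^ s) := by
  rw [← ENNReal.ofReal_rpow_of_nonneg (norm_nonneg g) hs, ofReal_norm]

/-- the equation, in absolute values -/
theorem eqn (T : LL ι →L[ℂ] LL ι) (hT : Rs T) (lam : ℝ) (ω : ι → ℝ) (z : ℂ) (hz : z.im ≠ 0)
    (s : ℝ) (hs : 0 < s) (hs1 : s ≤ 1) (x y : ι) (hx : |ω x| ≤ 1) :
    ‖((lam * ω x : ℝ) : ℂ) - z‖ₑ ^ s * ‖Gr (HH T lam ω) z x y‖ₑ ^ s ≤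
      (‖(dv y : LL ι) x‖ₑ) ^ s + ∑' u, ‖T (dv x) u‖ₑ ^ s * ‖Gr (HH T lam ω) z u y‖ₑ ^ s := by
  obtain ⟨w, hw⟩ : ∃ w, w = Rz (HH T lam ω) z (dv y) := ⟨_, rfl⟩
  have h0 : ∀ u, Gr (HH T lam ω) z u y = w u := by
    intro u
    rw [hw]
    rfl
  have h1 : HH T lam ω w - z • w = dv y := by rw [hw]; exact rz_eq _ (HH_rs T hT lam ω).sa z hz _
  have h2 : T w x + ((lam * ω x : ℝ) : ℂ) * w x - z * w x = (dv y : LL ι) x := by
    rw [← h1, sub_coord, smul_coord, HH_apply, clp_eq]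
    rw [abs_mul]
    exact mul_le_of_le_one_right (abs_nonneg _) hx
  have h3 : (((lam * ω x : ℝ) : ℂ) - z) * w x = (dv y : LL ι) x - ∑' u, T (dv x) u * w u := by
    rw [← row T hT w x]
    linear_combination h2
  rw [← ENNReal.mul_rpow_of_nonneg _ _ hs.le, h0, ← enorm_mul, h3]
  have h4 : ‖(dv y : LL ι) x - ∑' u, T (dv x) u * w u‖ₑ ≤
      ‖(dv y : LL ι) x‖ₑ + ∑' u, ‖T (dv x) u‖ₑ * ‖w u‖ₑ := by
    refine (enorm_sub_le).trans ?_
    gcongr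
    refine enorm_tsum_le_tsum_enorm.trans (le_of_eq ?_)
    exact tsum_congr fun u => enorm_mul _ _
  calc ‖(dv y : LL ι) x - ∑' u, T (dv x) u * w u‖ₑ ^ s ≤
        (‖(dv y : LL ι) x‖ₑ + ∑' u, ‖T (dv x) u‖ₑ * ‖w u‖ₑ) ^ s := by gcongr
    _ ≤ ‖(dv y : LL ι) x‖ₑ ^ s + (∑' u, ‖T (dv x) u‖ₑ * ‖w u‖ₑ) ^ s :=
        ENNReal.rpow_add_le_add_rpow _ _ hs.le hs1
    _ ≤ ‖(dv y : LL ι) x‖ₑ ^ s + ∑' u, (‖T (dv x) u‖ₑ * ‖w u‖ₑ) ^ s := by
        gcongr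
        exact rpow_tsum_le _ s hs hs1
    _ = _ := by
        congr 1
        refine tsum_congr fun u => ?_
        rw [ENNReal.mul_rpow_of_nonneg _ _ hs.le, h0]

theorem coord_im (A : LL ι →L[ℂ] LL ι) (hA : Rs A) (z : ℂ) (hz : 0 < z.im) (x y : ι) :
    z.im * ‖Gr A z x y‖ ^ 2 ≤ (Gr A z x x).im := by
  rw [Gr_im A hA z x hz.ne', Gr_symm A hA z x y hz.ne']
  have : ‖Gr A z y x‖ ≤ ‖Rz A z (dv x)‖ := ll_coord _ y
  gcongr

theorem Gr_im_pos (A : LL ι →L[ℂ] LL ι) (hA : Rs A) (z : ℂ) (hz : 0 < z.im) (x : ι) :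
    0 < (Gr A z x x).im := by
  rw [Gr_im A hA z x hz.ne']
  have h1 : Rz A z (dv x) ≠ 0 := by
    intro h
    have h2 := rz_eq A hA.sa z hz.ne' (dv x)
    rw [h, map_zero, smul_zero, sub_zero] at h2
    have h3 := norm_dv x
    rw [← h2, norm_zero] at h3
    exact zero_ne_one h3
  have : 0 < ‖Rz A z (dv x)‖ := norm_pos_iff.2 h1
  positivity

theorem den_ne (t : ℝ) (a : ℂ) (ha : 0 < a.im) : 1 + (t : ℂ) * a ≠ 0 := by
  intro h
  have h1 := congrArg Complex.im h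
  simp only [Complex.add_im, Complex.one_im, Complex.mul_im, Complex.ofReal_re, Complex.ofReal_im,
    zero_mul, add_zero, zero_add, Complex.zero_im] at h1
  have h2 : t = 0 := by
    rcases mul_eq_zero.1 h1 with h2 | h2
    · exact h2
    · exact absurd h2 ha.ne'
  rw [h2] at h
  simp at h

open Classical in
theorem site (T : LL ι →L[ℂ] LL ι) (hT : Rs T) (lam : ℝ) (ω : ι → ℝ) (z : ℂ) (hz : 0 < z.im)
    (x y : ι) (v : ℝ) (hv : |v| ≤ 1) :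
    Gr (HH T lam (Function.update ω x v)) z x y =
      Gr (HH T lam (Function.update ω x 0)) z x y /
        (1 + (lam : ℂ) * (v : ℂ) * Gr (HH T lam (Function.update ω x 0)) z x x) := by
  have h1 := rank_one _ _ (HH_rs T hT lam (Function.update ω x 0)).sa
    (HH_rs T hT lam (Function.update ω x v)).sa x ((lam * v : ℝ) : ℂ)
    (fun u => HH_update T lam ω x v hv u) z hz.ne' y
  have h2 := den_ne (lam * v) _ (Gr_im_pos _ (HH_rs T hT lam (Function.update ω x 0)) z hz x)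
  rw [eq_div_iff]
  · rw [← h1]
    push_cast
    ring
  · push_cast at h2
    exact h2

open Classical in
/-- the decoupling inequality for Green functions -/
theorem dec_gr (T : LL ι →L[ℂ] LL ι) (hT : Rs T) (lam : ℝ) (hlam : 0 < lam) (s c : ℝ)
    (hs : 0 < s)
    (μ : Measure ℝ) (hμ : ∀ᵐ v ∂μ, |v| ≤ 1)
    (hd : ∀ α β : ℂ, β.im ≠ 0 →
        ENNReal.ofReal c * ∫⁻ v : ℝ, ENNReal.ofReal (‖(v : ℂ) - β‖ ^ (-s)) ∂μ ≤
          ∫⁻ v : ℝ, ENNReal.ofReal (‖(v : ℂ) - α‖ ^ s * ‖(v : ℂ) - β‖ ^ (-s)) ∂μ)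
    (ω : ι → ℝ) (z : ℂ) (hz : 0 < z.im) (x y : ι) :
    ENNReal.ofReal (c * lam ^ s) *
      ∫⁻ v : ℝ, ‖Gr (HH T lam (Function.update ω x v)) z x y‖ₑ ^ s ∂μ ≤
    ∫⁻ v : ℝ, ‖((lam * v : ℝ) : ℂ) - z‖ₑ ^ s *
      ‖Gr (HH T lam (Function.update ω x v)) z x y‖ₑ ^ s ∂μ := by
  obtain ⟨a, ha⟩ : ∃ a, a = Gr (HH T lam (Function.update ω x 0)) z x x := ⟨_, rfl⟩
  obtain ⟨g, hg⟩ : ∃ g, g = Gr (HH T lam (Function.update ω x 0)) z x y := ⟨_, rfl⟩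
  have ha0 : 0 < a.im := by rw [ha]; exact Gr_im_pos _ (HH_rs T hT lam _) z hz x
  have hane : a ≠ 0 := by
    intro h
    rw [h] at ha0
    simp at ha0
  have han : 0 < ‖a‖ := norm_pos_iff.2 hane
  have hlc : (lam : ℂ) ≠ 0 := by exact_mod_cast hlam.ne'
  obtain ⟨β, hβ⟩ : ∃ β : ℂ, β = -1 / ((lam : ℂ) * a) := ⟨_, rfl⟩
  obtain ⟨α, hα⟩ : ∃ α : ℂ, α = z / (lam : ℂ) := ⟨_, rfl⟩
  obtain ⟨k, hk⟩ : ∃ k : ℝ, k = ‖g‖ / (lam * ‖a‖) := ⟨_, rfl⟩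
  have hk0 : 0 ≤ k := by rw [hk]; positivity
  have hβi : β.im ≠ 0 := by
    intro h
    have h1 : β * ((lam : ℂ) * a) = -1 := by
      rw [hβ]
      field_simp
    have h2 : (β : ℂ) = (β.re : ℂ) := by
      apply Complex.ext
      · simp
      · simp [h]
    rw [h2] at h1
    have h3 := congrArg Complex.im h1
    simp only [Complex.mul_im, Complex.ofReal_re, Complex.ofReal_im, zero_mul, add_zero,
      Complex.mul_re, sub_zero, Complex.neg_im, Complex.one_im, neg_zero] at h3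
    have h4 : β.re = 0 := by
      rcases mul_eq_zero.1 h3 with h4 | h4
      · exact h4
      · exact absurd h4 (mul_pos hlam ha0).ne'
    rw [h4] at h1
    simp at h1
  -- the absolute values
  have e1 : ∀ v : ℝ, ‖g / (1 + (lam : ℂ) * (v : ℂ) * a)‖ = k * ‖(v : ℂ) - β‖⁻¹ := by
    intro v
    have h1 : 1 + (lam : ℂ) * (v : ℂ) * a = (lam : ℂ) * a * ((v : ℂ) - β) := by
      rw [hβ]
      field_simp
      ring
    rw [h1, norm_div, norm_mul, norm_mul, Complex.norm_real, Real.norm_of_nonneg hlam.le, hk,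
      div_mul_eq_div_div, div_eq_mul_inv]
  have e2 : ∀ v : ℝ, ‖((lam * v : ℝ) : ℂ) - z‖ = lam * ‖(v : ℂ) - α‖ := by
    intro v
    have h1 : ((lam * v : ℝ) : ℂ) - z = (lam : ℂ) * ((v : ℂ) - α) := by
      rw [hα]
      push_cast
      field_simp
    rw [h1, norm_mul, Complex.norm_real, Real.norm_of_nonneg hlam.le]
  have e3 : ∀ v : ℝ, (k * ‖(v : ℂ) - β‖⁻¹) ^ s = k ^ s * ‖(v : ℂ) - β‖ ^ (-s) := by
    intro v
    rw [Real.mul_rpow hk0 (by positivity), Real.inv_rpow (norm_nonneg _),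
      ← Real.rpow_neg (norm_nonneg _)]
  have i1 : ∫⁻ v : ℝ, ‖Gr (HH T lam (Function.update ω x v)) z x y‖ₑ ^ s ∂μ =
      ENNReal.ofReal (k ^ s) * ∫⁻ v : ℝ, ENNReal.ofReal (‖(v : ℂ) - β‖ ^ (-s)) ∂μ := by
    rw [← lintegral_const_mul' _ _ ENNReal.ofReal_ne_top]
    refine lintegral_congr_ae ?_
    filter_upwards [hμ] with v hv
    rw [site T hT lam ω z hz x y v hv, ← ha, ← hg, enorm_rpow _ s hs.le, e1, e3,
      ENNReal.ofReal_mul (by positivity)]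
  have i2 : ∫⁻ v : ℝ, ‖((lam * v : ℝ) : ℂ) - z‖ₑ ^ s *
      ‖Gr (HH T lam (Function.update ω x v)) z x y‖ₑ ^ s ∂μ =
      ENNReal.ofReal (lam ^ s * k ^ s) *
        ∫⁻ v : ℝ, ENNReal.ofReal (‖(v : ℂ) - α‖ ^ s * ‖(v : ℂ) - β‖ ^ (-s)) ∂μ := by
    rw [← lintegral_const_mul' _ _ ENNReal.ofReal_ne_top]
    refine lintegral_congr_ae ?_
    filter_upwards [hμ] with v hv
    rw [site T hT lam ω z hz x y v hv, ← ha, ← hg, enorm_rpow _ s hs.le, enorm_rpow _ s hs.le,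
      e1, e2, e3, ← ENNReal.ofReal_mul (by positivity), ← ENNReal.ofReal_mul (by positivity),
      Real.mul_rpow hlam.le (norm_nonneg _)]
    congr 1
    ring
  rw [i1, i2]
  calc ENNReal.ofReal (c * lam ^ s) *
        (ENNReal.ofReal (k ^ s) * ∫⁻ v : ℝ, ENNReal.ofReal (‖(v : ℂ) - β‖ ^ (-s)) ∂μ) =
      ENNReal.ofReal (lam ^ s * k ^ s) *
        (ENNReal.ofReal c * ∫⁻ v : ℝ, ENNReal.ofReal (‖(v : ℂ) - β‖ ^ (-s)) ∂μ) := by
        rw [mul_comm c, ENNReal.ofReal_mul (by positivity), ENNReal.ofReal_mul (by positivity)]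
        ring
    _ ≤ _ := by
        gcongr
        exact hd α β hβi

end Pool.Agent.H121.Z987
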