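import Pool.Agent.H121.Z987.Main
import Pool.Agent.H122.Z987.Dec
import Pool.Agent.H410.Z987.Graf
import Pool.Agent.H717.Z987.Wien
import Pool.Agent.H295.Z987.Clos

/-! **F4** of the project Z: localization at strong disorder on a countable set. -/

set_option autoImplicit false

namespace Pool.Agent.H121.Z987

theorem loc : Pool.Agent.H987.Z.S_loc :=
  loc_of Pool.Agent.H122.Z987.dec Pool.Agent.H410.Z987.graf Pool.Agent.H717.Z987.wien
    Pool.Agent.H295.Z987.clos

end Pool.Agent.H121.Z987
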