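import Pool.Agent.H121.Z987.Mom

/-! Assembly of `S_loc`. -/

set_option autoImplicit false
set_option linter.unusedSectionVars false

open scoped BigOperators InnerProductSpace Topology ENNReal
open Filter MeasureTheory

namespace Pool.Agent.H121.Z987

open Pool.Agent.Y662.TR
open Pool.Agent.TH369.AN (Rz rz_eq rz_uniq rz_norm)
open Pool.Agent.TH369.MU (SpM ep zk spm_exists)
open Pool.Agent.TH369.MU.PO2 (ep_pos ep_tendsto)
open Pool.Agent.H987.Z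
open Pool.Agent.H304.Z987 (mul_summable' tsum_dv' Gr_symm Gr_im Gr_le rz_sub' Gr_sub_z_le)

variable {ι : Type}

theorem ep_le (k : ℕ) : ep k ≤ 1 := by
  unfold ep
  rw [div_le_one (by positivity)]
  have : (0 : ℝ) ≤ k := Nat.cast_nonneg k
  linarith

open Classical in
/-- Graf's bound for Green functions -/
theorem graf_gr (T : LL ι →L[ℂ] LL ι) (hT : Rs T) (lam : ℝ) (s C : ℝ)
    (hs : 0 < s) (μ : Measure ℝ) (hμ : ∀ᵐ v ∂μ, |v| ≤ 1)
    (hg : ∀ (a g : ℂ) (ε : ℝ), 0 < ε → ε ≤ 1 → 0 < a.im → ε * ‖g‖ ^ 2 ≤ a.im →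
      ε * ‖a‖ ^ 2 ≤ a.im →
        ∫⁻ v : ℝ, ENNReal.ofReal (ε * ‖g / (1 + (lam : ℂ) * (v : ℂ) * a)‖ ^ 2) ∂μ ≤
          ENNReal.ofReal C *
            ∫⁻ v : ℝ, ENNReal.ofReal (‖g / (1 + (lam : ℂ) * (v : ℂ) * a)‖ ^ s) ∂μ)
    (ω : ι → ℝ) (E : ℝ) (k : ℕ) (x y : ι) :
    ∫⁻ v : ℝ, ENNReal.ofReal (ep k * ‖Gr (HH T lam (Function.update ω x v)) (zk E k) x y‖ ^ 2) ∂μ ≤
      ENNReal.ofReal C *
        ∫⁻ v : ℝ, ‖Gr (HH T lam (Function.update ω x v)) (zk E k) x y‖ₑ ^ s ∂μ := by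
  have hz : 0 < (zk E k).im := by rw [zk_im]; exact ep_pos k
  have h1 := hg (Gr (HH T lam (Function.update ω x 0)) (zk E k) x x)
    (Gr (HH T lam (Function.update ω x 0)) (zk E k) x y) (ep k) (ep_pos k) (ep_le k)
    (Gr_im_pos _ (HH_rs T hT lam _) _ hz x)
    (by have := coord_im _ (HH_rs T hT lam (Function.update ω x 0)) _ hz x y
        rwa [zk_im] at this)
    (by have := coord_im _ (HH_rs T hT lam (Function.update ω x 0)) _ hz x x
        rwa [zk_im] at this)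
  have i1 : ∫⁻ v : ℝ, ENNReal.ofReal
      (ep k * ‖Gr (HH T lam (Function.update ω x v)) (zk E k) x y‖ ^ 2) ∂μ =
      ∫⁻ v : ℝ, ENNReal.ofReal (ep k * ‖Gr (HH T lam (Function.update ω x 0)) (zk E k) x y /
        (1 + (lam : ℂ) * (v : ℂ) * Gr (HH T lam (Function.update ω x 0)) (zk E k) x x)‖ ^ 2) ∂μ := by
    refine lintegral_congr_ae ?_
    filter_upwards [hμ] with v hv
    rw [site T hT lam ω _ hz x y v hv]
  have i2 : ∫⁻ v : ℝ, ‖Gr (HH T lam (Function.update ω x v)) (zk E k) x y‖ₑ ^ s ∂μ =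
      ∫⁻ v : ℝ, ENNReal.ofReal (‖Gr (HH T lam (Function.update ω x 0)) (zk E k) x y /
        (1 + (lam : ℂ) * (v : ℂ) * Gr (HH T lam (Function.update ω x 0)) (zk E k) x x)‖ ^ s) ∂μ := by
    refine lintegral_congr_ae ?_
    filter_upwards [hμ] with v hv
    rw [site T hT lam ω _ hz x y v hv, enorm_rpow _ s hs.le]
  rw [i1, i2]
  exact h1

section prob

variable [Countable ι]

/-- the fractional moment -/
noncomputable def fm (T : LL ι →L[ℂ] LL ι) (lam s : ℝ) (μ : Measure ℝ) [IsProbabilityMeasure μ]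
    (y : ι) (z : ℂ) (x : ι) : ℝ≥0∞ :=
  ∫⁻ ω, ‖Gr (HH T lam ω) z x y‖ₑ ^ s ∂(Measure.infinitePi fun _ : ι => μ)

theorem Gr_meas1 (T : LL ι →L[ℂ] LL ι) (hT : Rs T) (lam : ℝ) (z : ℂ) (x y : ι)
    (hz : z.im ≠ 0) : Measurable fun ω : ι → ℝ => Gr (HH T lam ω) z x y :=
  (Gr_HH_cont T hT lam z x y hz).measurable

theorem fm_le (T : LL ι →L[ℂ] LL ι) (hT : Rs T) (lam s : ℝ) (hs : 0 < s) (μ : Measure ℝ)
    [IsProbabilityMeasure μ] (y : ι) (z : ℂ) (hz : 0 < z.im) (x : ι) :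
    fm T lam s μ y z x ≤ ENNReal.ofReal ((1 / z.im) ^ s) := by
  unfold fm
  have h1 : ∀ ω : ι → ℝ, ‖Gr (HH T lam ω) z x y‖ₑ ^ s ≤ ENNReal.ofReal ((1 / z.im) ^ s) := by
    intro ω
    rw [enorm_rpow _ s hs.le]
    apply ENNReal.ofReal_le_ofReal
    exact Real.rpow_le_rpow (norm_nonneg _) (Gr_le _ (HH_rs T hT lam ω) z x y hz) hs.le
  calc ∫⁻ ω, ‖Gr (HH T lam ω) z x y‖ₑ ^ s ∂(Measure.infinitePi fun _ : ι => μ) ≤
        ∫⁻ _, ENNReal.ofReal ((1 / z.im) ^ s) ∂(Measure.infinitePi fun _ : ι => μ) :=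
        lintegral_mono h1
    _ = _ := by rw [lintegral_const, measure_univ, mul_one]

open Classical in
/-- the inequality for the fractional moments -/
theorem fm_ineq (T : LL ι →L[ℂ] LL ι) (hT : Rs T) (lam : ℝ) (hlam : 0 < lam) (s c : ℝ)
    (hs : 0 < s) (hs1 : s ≤ 1) (μ : Measure ℝ) [IsProbabilityMeasure μ] (hμ : ∀ᵐ v ∂μ, |v| ≤ 1)
    (hd : ∀ α β : ℂ, β.im ≠ 0 →
        ENNReal.ofReal c * ∫⁻ v : ℝ, ENNReal.ofReal (‖(v : ℂ) - β‖ ^ (-s)) ∂μ ≤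
          ∫⁻ v : ℝ, ENNReal.ofReal (‖(v : ℂ) - α‖ ^ s * ‖(v : ℂ) - β‖ ^ (-s)) ∂μ)
    (y : ι) (z : ℂ) (hz : 0 < z.im) (x : ι) :
    ENNReal.ofReal (c * lam ^ s) * fm T lam s μ y z x ≤
      (if x = y then 1 else 0) + ∑' u, ‖T (dv x) u‖ₑ ^ s * fm T lam s μ y z u := by
  have hm : ∀ u, Measurable fun ω : ι → ℝ => ‖Gr (HH T lam ω) z u y‖ₑ ^ s := fun u =>
    ((Gr_meas1 T hT lam z u y hz.ne').enorm).pow_const s
  have hm2 : Measurable fun ω : ι → ℝ =>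
      ‖((lam * ω x : ℝ) : ℂ) - z‖ₑ ^ s * ‖Gr (HH T lam ω) z x y‖ₑ ^ s := by
    refine Measurable.mul ?_ (hm x)
    refine Measurable.pow_const (Measurable.enorm ?_) s
    have h1 : Measurable fun ω : ι → ℝ => ω x := measurable_pi_apply x
    exact (Complex.measurable_ofReal.comp (h1.const_mul lam)).sub_const z
  have hb : ∀ᵐ ω ∂(Measure.infinitePi fun _ : ι => μ), |ω x| ≤ 1 := by
    have h1 := (measurePreserving_eval_infinitePi (fun _ : ι => μ) x).quasiMeasurePreserving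
    exact h1.ae hμ
  calc ENNReal.ofReal (c * lam ^ s) * fm T lam s μ y z x =
        ∫⁻ ω, ENNReal.ofReal (c * lam ^ s) *
          ∫⁻ v, ‖Gr (HH T lam (Function.update ω x v)) z x y‖ₑ ^ s ∂μ
          ∂(Measure.infinitePi fun _ : ι => μ) := by
        unfold fm
        rw [lint_resample μ x _ (hm x), lintegral_const_mul' _ _ ENNReal.ofReal_ne_top]
    _ ≤ ∫⁻ ω, ∫⁻ v, ‖((lam * v : ℝ) : ℂ) - z‖ₑ ^ s *
          ‖Gr (HH T lam (Function.update ω x v)) z x y‖ₑ ^ s ∂μ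
          ∂(Measure.infinitePi fun _ : ι => μ) := by
        refine lintegral_mono fun ω => ?_
        exact dec_gr T hT lam hlam s c hs μ hμ hd ω z hz x y
    _ = ∫⁻ ω, ‖((lam * ω x : ℝ) : ℂ) - z‖ₑ ^ s * ‖Gr (HH T lam ω) z x y‖ₑ ^ s
          ∂(Measure.infinitePi fun _ : ι => μ) := by
        rw [lint_resample μ x _ hm2]
        simp only [Function.update_self]
    _ ≤ ∫⁻ ω, ((‖(dv y : LL ι) x‖ₑ) ^ s +
          ∑' u, ‖T (dv x) u‖ₑ ^ s * ‖Gr (HH T lam ω) z u y‖ₑ ^ s)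
          ∂(Measure.infinitePi fun _ : ι => μ) := by
        refine lintegral_mono_ae ?_
        filter_upwards [hb] with ω hω
        exact eqn T hT lam ω z hz.ne' s hs hs1 x y hω
    _ = _ := by
        rw [lintegral_add_left measurable_const, lintegral_const, measure_univ, mul_one,
          lintegral_tsum fun u => ((hm u).const_mul _).aemeasurable]
        congr 1
        · by_cases h : x = y
          · subst h
            rw [dv_self, if_pos rfl]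
            simp
          · rw [dv_ne h, if_neg h]
            simp [hs]
        · refine tsum_congr fun u => ?_
          rw [lintegral_const_mul _ (hm u)]
          rfl

open Classical in
theorem fm_iter (T : LL ι →L[ℂ] LL ι) (hT : Rs T) (lam : ℝ) (s c S : ℝ)
    (hs : 0 < s) (hS : 0 < S)
    (hc : 2 * S ≤ c * lam ^ s)
    (hTs : ∀ x, (Summable fun y => ‖T (dv y) x‖ ^ s) ∧ ∑' y, ‖T (dv y) x‖ ^ s ≤ S)
    (y : ι) (f : ι → ℝ≥0∞) (M : ℝ≥0∞) (hM : M ≠ ∞) (hf : ∀ x, f x ≤ M)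
    (h : ∀ x, ENNReal.ofReal (c * lam ^ s) * f x ≤
      (if x = y then 1 else 0) + ∑' u, ‖T (dv x) u‖ₑ ^ s * f u) :
    ∑' x, f x ≤ 2 * (ENNReal.ofReal (c * lam ^ s))⁻¹ := by
  obtain ⟨L, hL⟩ : ∃ L, L = ENNReal.ofReal (c * lam ^ s) := ⟨_, rfl⟩
  have hL0 : 0 < c * lam ^ s := by linarith
  have hLpos : L ≠ 0 := by
    rw [hL]
    exact (ENNReal.ofReal_pos.2 hL0).ne'
  have hLtop : L ≠ ∞ := by
    rw [hL]
    exact ENNReal.ofReal_ne_top
  rw [← hL] at h ⊢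
  -- the row sums
  have hrow : ∀ x, ∑' u, ‖T (dv u) x‖ₑ ^ s ≤ ENNReal.ofReal S := by
    intro x
    have e1 : ∀ u, ‖T (dv u) x‖ₑ ^ s = ENNReal.ofReal (‖T (dv u) x‖ ^ s) := fun u =>
      enorm_rpow _ s hs.le
    simp only [e1]
    rw [← ENNReal.ofReal_tsum_of_nonneg (fun u => by positivity) (hTs x).1]
    exact ENNReal.ofReal_le_ofReal (hTs x).2
  have hSL : L⁻¹ * ENNReal.ofReal S ≤ 2⁻¹ := by
    rw [hL, ← ENNReal.ofReal_inv_of_pos hL0, ← ENNReal.ofReal_mul (by positivity)]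
    have : (2⁻¹ : ℝ≥0∞) = ENNReal.ofReal (2⁻¹) := by
      rw [ENNReal.ofReal_inv_of_pos (by norm_num)]
      norm_num
    rw [this]
    apply ENNReal.ofReal_le_ofReal
    rw [inv_mul_le_iff₀ hL0]
    linarith
  refine iter (fun x u => L⁻¹ * ‖T (dv x) u‖ₑ ^ s) ?_ ?_ f M hM hf L⁻¹
    (fun x => L⁻¹ * (if x = y then 1 else 0)) ?_ ?_
  · intro x
    rw [ENNReal.tsum_mul_left]
    refine le_trans ?_ hSL
    gcongr
    refine le_trans (le_of_eq ?_) (hrow x)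
    exact tsum_congr fun u => by rw [ker_symm T hT x u]
  · intro u
    rw [ENNReal.tsum_mul_left]
    refine le_trans ?_ hSL
    gcongr
    exact hrow u
  · rw [ENNReal.tsum_mul_left, tsum_ite_eq, mul_one]
  · intro x
    have h1 := h x
    have h2 : f x = L⁻¹ * (L * f x) := by
      rw [← mul_assoc, ENNReal.inv_mul_cancel hLpos hLtop, one_mul]
    rw [h2]
    calc L⁻¹ * (L * f x) ≤ L⁻¹ * ((if x = y then 1 else 0) + ∑' u, ‖T (dv x) u‖ₑ ^ s * f u) := by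
          gcongr
      _ = _ := by
          rw [mul_add]
          congr 1
          rw [← ENNReal.tsum_mul_left]
          exact tsum_congr fun u => (mul_assoc _ _ _).symm

/-- the supremum of the fractional moments -/
noncomputable def fs (T : LL ι →L[ℂ] LL ι) (lam s : ℝ) (μ : Measure ℝ) [IsProbabilityMeasure μ]
    (y : ι) (x : ι) : ℝ≥0∞ := ⨆ p : ℝ × ℕ, fm T lam s μ y (zk p.1 p.2) x

theorem fs_sum (T : LL ι →L[ℂ] LL ι) (hT : Rs T) (lam : ℝ) (hlam : 0 < lam) (s c S : ℝ)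
    (hs : 0 < s) (hs1 : s ≤ 1) (hS : 0 < S) (hc : 2 * S ≤ c * lam ^ s)
    (hTs : ∀ x, (Summable fun y => ‖T (dv y) x‖ ^ s) ∧ ∑' y, ‖T (dv y) x‖ ^ s ≤ S)
    (μ : Measure ℝ) [IsProbabilityMeasure μ] (hμ : ∀ᵐ v ∂μ, |v| ≤ 1)
    (hd : ∀ α β : ℂ, β.im ≠ 0 →
        ENNReal.ofReal c * ∫⁻ v : ℝ, ENNReal.ofReal (‖(v : ℂ) - β‖ ^ (-s)) ∂μ ≤
          ∫⁻ v : ℝ, ENNReal.ofReal (‖(v : ℂ) - α‖ ^ s * ‖(v : ℂ) - β‖ ^ (-s)) ∂μ)
    (y : ι) : ∑' x, fs T lam s μ y x ≠ ∞ := by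
  classical
  obtain ⟨B, hB⟩ : ∃ B, B = 2 * (ENNReal.ofReal (c * lam ^ s))⁻¹ := ⟨_, rfl⟩
  have hBtop : B ≠ ∞ := by
    rw [hB]
    refine ENNReal.mul_ne_top (by norm_num) (ENNReal.inv_ne_top.2 ?_)
    exact (ENNReal.ofReal_pos.2 (by linarith)).ne'
  have h1 : ∀ (p : ℝ × ℕ) (x : ι), fm T lam s μ y (zk p.1 p.2) x ≤ B := by
    intro p x
    have hz : 0 < (zk p.1 p.2).im := by rw [zk_im]; exact ep_pos _
    have h2 := fm_iter T hT lam s c S hs hS hc hTs y (fm T lam s μ y (zk p.1 p.2)) _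
      ENNReal.ofReal_ne_top (fm_le T hT lam s hs μ y _ hz)
      (fm_ineq T hT lam hlam s c hs hs1 μ hμ hd y _ hz)
    rw [hB]
    exact (ENNReal.le_tsum x).trans h2
  have h3 : ∀ x, fs T lam s μ y x ≤ B := fun x => iSup_le fun p => h1 p x
  have h4 := fm_iter T hT lam s c S hs hS hc hTs y (fs T lam s μ y) B hBtop h3 (by
    intro x
    unfold fs
    rw [ENNReal.mul_iSup]
    refine iSup_le fun p => ?_
    have hz : 0 < (zk p.1 p.2).im := by rw [zk_im]; exact ep_pos _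
    refine (fm_ineq T hT lam hlam s c hs hs1 μ hμ hd y _ hz x).trans ?_
    gcongr with u
    exact le_iSup (fun p : ℝ × ℕ => fm T lam s μ y (zk p.1 p.2) u) p)
  rw [← hB] at h4
  exact (h4.trans_lt hBtop.lt_top).ne

theorem Q_fin : Q Set.univ ≠ ∞ := by
  unfold Q
  rw [withDensity_apply _ MeasurableSet.univ, setLIntegral_univ]
  have h1 : Integrable wt := by
    have := integrable_inv_one_add_sq
    refine this.congr (Eventually.of_forall fun E => ?_)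
    simp [wt]
  have h2 := h1.hasFiniteIntegral
  rw [hasFiniteIntegral_iff_ofReal (Eventually.of_forall fun E => by
    unfold wt
    positivity)] at h2
  exact h2.ne

instance Q_isFinite : IsFiniteMeasure Q := ⟨Q_fin.lt_top⟩

open Classical in
/-- the second moments -/
theorem sm_le (T : LL ι →L[ℂ] LL ι) (hT : Rs T) (lam : ℝ) (s C : ℝ)
    (hs : 0 < s) (μ : Measure ℝ) [IsProbabilityMeasure μ] (hμ : ∀ᵐ v ∂μ, |v| ≤ 1)
    (hg : ∀ (a g : ℂ) (ε : ℝ), 0 < ε → ε ≤ 1 → 0 < a.im → ε * ‖g‖ ^ 2 ≤ a.im →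
      ε * ‖a‖ ^ 2 ≤ a.im →
        ∫⁻ v : ℝ, ENNReal.ofReal (ε * ‖g / (1 + (lam : ℂ) * (v : ℂ) * a)‖ ^ 2) ∂μ ≤
          ENNReal.ofReal C *
            ∫⁻ v : ℝ, ENNReal.ofReal (‖g / (1 + (lam : ℂ) * (v : ℂ) * a)‖ ^ s) ∂μ)
    (y : ι) (E : ℝ) (k : ℕ) (x : ι) :
    ∫⁻ ω, ENNReal.ofReal (ep k * ‖Gr (HH T lam ω) (zk E k) x y‖ ^ 2)
      ∂(Measure.infinitePi fun _ : ι => μ) ≤ ENNReal.ofReal C * fs T lam s μ y x := by
  have hz : (zk E k).im ≠ 0 := by rw [zk_im]; exact (ep_pos k).ne'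
  have hm := Gr_meas1 T hT lam (zk E k) x y hz
  have hm1 : Measurable fun ω : ι → ℝ =>
      ENNReal.ofReal (ep k * ‖Gr (HH T lam ω) (zk E k) x y‖ ^ 2) :=
    ((hm.norm.pow_const 2).const_mul _).ennreal_ofReal
  have hm2 : Measurable fun ω : ι → ℝ => ‖Gr (HH T lam ω) (zk E k) x y‖ₑ ^ s :=
    hm.enorm.pow_const s
  calc ∫⁻ ω, ENNReal.ofReal (ep k * ‖Gr (HH T lam ω) (zk E k) x y‖ ^ 2)
        ∂(Measure.infinitePi fun _ : ι => μ) =
        ∫⁻ ω, ∫⁻ v, ENNReal.ofReal (ep k *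
          ‖Gr (HH T lam (Function.update ω x v)) (zk E k) x y‖ ^ 2) ∂μ
          ∂(Measure.infinitePi fun _ : ι => μ) := lint_resample μ x _ hm1
    _ ≤ ∫⁻ ω, ENNReal.ofReal C *
          ∫⁻ v, ‖Gr (HH T lam (Function.update ω x v)) (zk E k) x y‖ₑ ^ s ∂μ
          ∂(Measure.infinitePi fun _ : ι => μ) :=
        lintegral_mono fun ω => graf_gr T hT lam s C hs μ hμ hg ω E k x y
    _ = ENNReal.ofReal C * fm T lam s μ y (zk E k) x := by
        rw [lintegral_const_mul' _ _ ENNReal.ofReal_ne_top]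
        unfold fm
        rw [lint_resample μ x _ hm2]
    _ ≤ _ := by
        gcongr
        exact le_iSup (fun p : ℝ × ℕ => fm T lam s μ y (zk p.1 p.2) x) (E, k)

theorem Tl_meas (T : LL ι →L[ℂ] LL ι) (hT : Rs T) (lam : ℝ) (y : ι) (F : Finset ι) (k : ℕ) :
    Measurable fun ω : ι → ℝ => Tl (HH T lam ω) y F k := by
  unfold Tl
  have h1 : Measurable (Function.uncurry fun (E : ℝ) (ω : ι → ℝ) =>
      ∑' x : {x : ι // x ∉ F}, ENNReal.ofReal (ep k * ‖Gr (HH T lam ω) (zk E k) x y‖ ^ 2)) := by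
    refine Measurable.tsum fun x => ?_
    exact (((Gr_meas T hT lam k x y).norm.pow_const 2).const_mul _).ennreal_ofReal
  exact Measurable.lintegral_prod_left' h1

theorem Tl_int (T : LL ι →L[ℂ] LL ι) (hT : Rs T) (lam : ℝ) (s C : ℝ)
    (hs : 0 < s) (μ : Measure ℝ) [IsProbabilityMeasure μ] (hμ : ∀ᵐ v ∂μ, |v| ≤ 1)
    (hg : ∀ (a g : ℂ) (ε : ℝ), 0 < ε → ε ≤ 1 → 0 < a.im → ε * ‖g‖ ^ 2 ≤ a.im →
      ε * ‖a‖ ^ 2 ≤ a.im →
        ∫⁻ v : ℝ, ENNReal.ofReal (ε * ‖g / (1 + (lam : ℂ) * (v : ℂ) * a)‖ ^ 2) ∂μ ≤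
          ENNReal.ofReal C *
            ∫⁻ v : ℝ, ENNReal.ofReal (‖g / (1 + (lam : ℂ) * (v : ℂ) * a)‖ ^ s) ∂μ)
    (y : ι) (F : Finset ι) (k : ℕ) :
    ∫⁻ ω, Tl (HH T lam ω) y F k ∂(Measure.infinitePi fun _ : ι => μ) ≤
      ENNReal.ofReal C * Q Set.univ * ∑' x : {x : ι // x ∉ F}, fs T lam s μ y x := by
  unfold Tl
  have h1 : ∀ x : {x : ι // x ∉ F}, Measurable (Function.uncurry fun (E : ℝ) (ω : ι → ℝ) =>
      ENNReal.ofReal (ep k * ‖Gr (HH T lam ω) (zk E k) x y‖ ^ 2)) := fun x =>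
    (((Gr_meas T hT lam k x y).norm.pow_const 2).const_mul _).ennreal_ofReal
  have h2 : Measurable (Function.uncurry fun (E : ℝ) (ω : ι → ℝ) =>
      ∑' x : {x : ι // x ∉ F}, ENNReal.ofReal (ep k * ‖Gr (HH T lam ω) (zk E k) x y‖ ^ 2)) :=
    Measurable.tsum h1
  rw [← lintegral_lintegral_swap (μ := Q) (ν := Measure.infinitePi fun _ : ι => μ)
    (f := fun (E : ℝ) (ω : ι → ℝ) => ∑' x : {x : ι // x ∉ F},
      ENNReal.ofReal (ep k * ‖Gr (HH T lam ω) (zk E k) x y‖ ^ 2)) h2.aemeasurable]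
  calc ∫⁻ E, ∫⁻ ω, ∑' x : {x : ι // x ∉ F}, ENNReal.ofReal
          (ep k * ‖Gr (HH T lam ω) (zk E k) x y‖ ^ 2) ∂(Measure.infinitePi fun _ : ι => μ) ∂Q ≤
        ∫⁻ _, ∑' x : {x : ι // x ∉ F}, ENNReal.ofReal C * fs T lam s μ y x ∂Q := by
        refine lintegral_mono fun E => ?_
        have h3 : ∀ x : {x : ι // x ∉ F}, Measurable fun ω : ι → ℝ =>
            ENNReal.ofReal (ep k * ‖Gr (HH T lam ω) (zk E k) x y‖ ^ 2) := fun x =>
          (((Gr_meas1 T hT lam (zk E k) x y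
            (by rw [zk_im]; exact (ep_pos k).ne')).norm.pow_const 2).const_mul _).ennreal_ofReal
        rw [lintegral_tsum fun x => (h3 x).aemeasurable]
        exact ENNReal.tsum_le_tsum fun x => sm_le T hT lam s C hs μ hμ hg y E k x
    _ = _ := by
        rw [lintegral_const, ENNReal.tsum_mul_left]
        ring

/-- the final step in the environment -/
theorem ae_tight (T : LL ι →L[ℂ] LL ι) (hT : Rs T) (lam : ℝ) (s C : ℝ)
    (hs : 0 < s) (μ : Measure ℝ) [IsProbabilityMeasure μ] (hμ : ∀ᵐ v ∂μ, |v| ≤ 1)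
    (hg : ∀ (a g : ℂ) (ε : ℝ), 0 < ε → ε ≤ 1 → 0 < a.im → ε * ‖g‖ ^ 2 ≤ a.im →
      ε * ‖a‖ ^ 2 ≤ a.im →
        ∫⁻ v : ℝ, ENNReal.ofReal (ε * ‖g / (1 + (lam : ℂ) * (v : ℂ) * a)‖ ^ 2) ∂μ ≤
          ENNReal.ofReal C *
            ∫⁻ v : ℝ, ENNReal.ofReal (‖g / (1 + (lam : ℂ) * (v : ℂ) * a)‖ ^ s) ∂μ)
    (y : ι) (hfs : ∑' x, fs T lam s μ y x ≠ ∞) :
    ∀ᵐ ω ∂(Measure.infinitePi fun _ : ι => μ), ∀ δ : ℝ≥0∞, 0 < δ → ∃ F : Finset ι,
      liminf (fun k => Tl (HH T lam ω) y F k) atTop ≤ δ := by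
  obtain ⟨B, hB⟩ : ∃ B, B = ENNReal.ofReal C * Q Set.univ := ⟨_, rfl⟩
  have hBtop : B ≠ ∞ := by
    rw [hB]
    exact ENNReal.mul_ne_top ENNReal.ofReal_ne_top Q_fin
  have h0 : Tendsto (fun F : Finset ι => B * ∑' x : {x : ι // x ∉ F}, fs T lam s μ y x) atTop
      (𝓝 0) := by
    have h1 := ENNReal.tendsto_tsum_compl_atTop_zero hfs
    have h2 := ENNReal.Tendsto.const_mul h1 (Or.inr hBtop)
    rw [mul_zero] at h2
    exact h2
  have h3 : ∀ n : ℕ, ∃ F : Finset ι,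
      B * ∑' x : {x : ι // x ∉ F}, fs T lam s μ y x ≤ ((n : ℝ≥0∞) + 1)⁻¹ := by
    intro n
    have hpos : (0 : ℝ≥0∞) < ((n : ℝ≥0∞) + 1)⁻¹ := by
      refine ENNReal.inv_pos.2 ?_
      exact ENNReal.add_ne_top.2 ⟨ENNReal.natCast_ne_top n, ENNReal.one_ne_top⟩
    obtain ⟨F, hF⟩ := (h0.eventually (ge_mem_nhds hpos)).exists
    exact ⟨F, hF⟩
  choose F hF using h3
  have hm : ∀ n, Measurable fun ω : ι → ℝ => liminf (fun k => Tl (HH T lam ω) y (F n) k) atTop :=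
    fun n => Measurable.liminf fun k => Tl_meas T hT lam y (F n) k
  have h4 : ∀ n, ∫⁻ ω, liminf (fun k => Tl (HH T lam ω) y (F n) k) atTop
      ∂(Measure.infinitePi fun _ : ι => μ) ≤ ((n : ℝ≥0∞) + 1)⁻¹ := by
    intro n
    refine (lintegral_liminf_le (μ := Measure.infinitePi fun _ : ι => μ) (u := atTop)
      (f := fun k ω => Tl (HH T lam ω) y (F n) k) fun k => Tl_meas T hT lam y (F n) k).trans ?_
    refine liminf_le_of_frequently_le' (Filter.Eventually.frequently ?_)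
    filter_upwards with k
    refine (Tl_int T hT lam s C hs μ hμ hg y (F n) k).trans ?_
    rw [← hB]
    exact hF n
  have h5 : ∫⁻ ω, ⨅ n, liminf (fun k => Tl (HH T lam ω) y (F n) k) atTop
      ∂(Measure.infinitePi fun _ : ι => μ) = 0 := by
    refine le_antisymm ?_ bot_le
    have h6 : Tendsto (fun n : ℕ => ((n : ℝ≥0∞) + 1)⁻¹) atTop (𝓝 0) := by
      have h7 := ENNReal.tendsto_inv_nat_nhds_zero
      have h8 := (tendsto_add_atTop_iff_nat 1).2 h7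
      refine h8.congr fun n => ?_
      push_cast
      rfl
    refine ge_of_tendsto' h6 fun n => le_trans ?_ (h4 n)
    exact lintegral_mono fun ω => iInf_le _ n
  rw [lintegral_eq_zero_iff (Measurable.iInf hm)] at h5
  filter_upwards [h5] with ω hω δ hδ
  have h6 : ⨅ n, liminf (fun k => Tl (HH T lam ω) y (F n) k) atTop < δ := by
    have : (⨅ n, liminf (fun k => Tl (HH T lam ω) y (F n) k) atTop) = 0 := hω
    rw [this]
    exact hδ
  obtain ⟨n, hn⟩ := iInf_lt_iff.1 h6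
  exact ⟨F n, hn.le⟩

end prob

/-- **localization** (from L1, L2, L3, L4) -/
theorem loc_of (h1 : S_dec) (h2 : S_graf) (h3 : S_wien) (h4 : S_clos) : S_loc := by
  intro s S D hs hs1 hS hD
  obtain ⟨c, hc, hdec⟩ := h1 s D hs hs1 hD
  refine ⟨(2 * S / c) ^ (1 / s), by positivity, ?_⟩
  intro ι _ T hT hTs μ _ hμ hA lam hlam
  have hlam0 : 0 < lam := lt_of_lt_of_le (by positivity) hlam
  have hcl : 2 * S ≤ c * lam ^ s := by
    have h5 : 2 * S / c ≤ lam ^ s := by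
      calc 2 * S / c = ((2 * S / c) ^ (1 / s)) ^ s := by
            rw [← Real.rpow_mul (by positivity), one_div_mul_cancel hs.ne', Real.rpow_one]
        _ ≤ lam ^ s := Real.rpow_le_rpow (by positivity) hlam hs.le
    rw [div_le_iff₀ hc] at h5
    linarith
  obtain ⟨C, hC, hgraf⟩ := h2 s D lam hs hs1 hD hlam0
  have hd := hdec μ hμ hA
  have hg := hgraf μ hμ hA
  have h5 : ∀ᵐ ω ∂(Measure.infinitePi fun _ : ι => μ), ∀ y : ι, ∀ δ : ℝ≥0∞, 0 < δ →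
      ∃ F : Finset ι, liminf (fun k => Tl (HH T lam ω) y F k) atTop ≤ δ := by
    rw [ae_all_iff]
    intro y
    exact ae_tight T hT lam s C hs μ hμ hg y
      (fs_sum T hT lam hlam0 s c S hs hs1.le hS hcl hTs μ hμ hd y)
  filter_upwards [h5] with ω hω φ m hm
  refine h4 ι (HH T lam ω) (HH_rs T hT lam ω).sa (fun y => ?_) φ m hm
  obtain ⟨m', hm', -⟩ := spm_exists (HH T lam ω) (HH_rs T hT lam ω).sa (dv y)
  obtain ⟨A, hA1, hA2⟩ := h3 ι (HH T lam ω) (HH_rs T hT lam ω) y (hω y) m' hm'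
  exact ⟨m', A, hm', hA1, hA2⟩

end Pool.Agent.H121.Z987
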