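import Pool.Agent.H121.Z987.Rs

/-! The Hamiltonian, its Green function, the rank one formula. -/

set_option autoImplicit false

open scoped BigOperators InnerProductSpace Topology ENNReal
open Filter MeasureTheory

namespace Pool.Agent.H121.Z987

open Pool.Agent.Y662.TR
open Pool.Agent.TH369.AN (Rz rz_eq rz_uniq rz_norm)
open Pool.Agent.TH369.MU (SpM ep zk)
open Pool.Agent.TH369.MU.PO2 (ep_pos ep_tendsto)
open Pool.Agent.H987.Z
open Pool.Agent.H304.Z987 (mul_summable' tsum_dv' Gr_symm Gr_im Gr_le rz_sub' Gr_sub_z_le)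

variable {ι : Type}

/-- the Hamiltonian -/
noncomputable def HH (T : LL ι →L[ℂ] LL ι) (lam : ℝ) (ω : ι → ℝ) : LL ι →L[ℂ] LL ι :=
  T + Mw lam fun x => lam * ω x

theorem HH_apply (T : LL ι →L[ℂ] LL ι) (lam : ℝ) (ω : ι → ℝ) (u : LL ι) (x : ι) :
    HH T lam ω u x = T u x + ((clp lam (lam * ω x) : ℝ) : ℂ) * u x := rfl

theorem HH_rs (T : LL ι →L[ℂ] LL ι) (hT : Rs T) (lam : ℝ) (ω : ι → ℝ) : Rs (HH T lam ω) := by
  refine ⟨hT.sa.add (Mw_sa lam _), fun u v => ?_⟩
  have h1 : ∀ x, HH T lam ω u x * v x = T u x * v x + Mw lam (fun x => lam * ω x) u x * v x := by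
    intro x
    have : HH T lam ω u x = T u x + Mw lam (fun x => lam * ω x) u x := rfl
    rw [this]; ring
  have h2 : ∀ x, u x * HH T lam ω v x = u x * T v x + Mw lam (fun x => lam * ω x) u x * v x := by
    intro x
    have : HH T lam ω v x = T v x + Mw lam (fun x => lam * ω x) v x := rfl
    rw [this, Mw_apply, Mw_apply]; ring
  rw [tsum_congr h1, tsum_congr h2,
    Summable.tsum_add (mul_summable' (T u) v) (mul_summable' (Mw lam (fun x => lam * ω x) u) v),
    Summable.tsum_add (mul_summable' u (T v)) (mul_summable' (Mw lam (fun x => lam * ω x) u) v),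
    hT.bil u v]

theorem Rz_HH_tendsto (T : LL ι →L[ℂ] LL ι) (hT : Rs T) (lam : ℝ) {α : Type*} {F : Filter α}
    (V : α → ι → ℝ) (V0 : ι → ℝ) (hV : ∀ x, Tendsto (fun k => V k x) F (𝓝 (V0 x)))
    (z : ℂ) (hz : z.im ≠ 0) (u : LL ι) :
    Tendsto (fun k => Rz (HH T lam (V k)) z u) F (𝓝 (Rz (HH T lam V0) z u)) := by
  rw [tendsto_iff_norm_sub_tendsto_zero]
  have h1 := Mw_tendsto lam (fun k x => lam * V k x) (fun x => lam * V0 x)
    (fun x => (hV x).const_mul lam) (Rz (HH T lam V0) z u)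
  rw [tendsto_iff_norm_sub_tendsto_zero] at h1
  have h2 := h1.div_const |z.im|
  rw [zero_div] at h2
  refine squeeze_zero (fun k => norm_nonneg _) (fun k => ?_) h2
  rw [rz_sub' _ (HH_rs T hT _ _).sa _ (HH_rs T hT _ _).sa z hz u]
  refine (rz_norm _ (HH_rs T hT _ _).sa z hz _).trans (le_of_eq ?_)
  congr 1
  rw [norm_sub_rev]
  congr 1
  change (T (Rz (HH T lam V0) z u) + Mw lam (fun x => lam * V k x) (Rz (HH T lam V0) z u)) -
    (T (Rz (HH T lam V0) z u) + Mw lam (fun x => lam * V0 x) (Rz (HH T lam V0) z u)) = _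
  abel

theorem Gr_HH_cont (T : LL ι →L[ℂ] LL ι) (hT : Rs T) (lam : ℝ) (z : ℂ) (x y : ι)
    (hz : z.im ≠ 0) : Continuous fun ω : ι → ℝ => Gr (HH T lam ω) z x y := by
  rw [continuous_iff_continuousAt]
  intro V0
  have h := Rz_HH_tendsto T hT lam (F := 𝓝 V0) (fun V : ι → ℝ => V) V0
    (fun w => (continuous_apply w).tendsto V0) z hz (dv y)
  have h2 := ((ev x).continuous.tendsto _).comp h
  exact h2

theorem zk_im (E : ℝ) (k : ℕ) : (zk E k).im = ep k := Pool.Agent.TH369.MU.QB.zk_im E k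

theorem Gr_E_cont (T : LL ι →L[ℂ] LL ι) (hT : Rs T) (k : ℕ) (x y : ι) :
    Continuous fun E : ℝ => Gr T (zk E k) x y := by
  have h0 : 0 < ep k := ep_pos k
  have h1 : LipschitzWith (Real.toNNReal (1 / (ep k * ep k)))
      (fun E : ℝ => Gr T (zk E k) x y) := by
    refine LipschitzWith.of_dist_le_mul fun E E' => ?_
    rw [dist_eq_norm, Real.coe_toNNReal _ (by positivity)]
    refine (Gr_sub_z_le T hT _ _ x y (by rw [zk_im]; exact h0) (by rw [zk_im]; exact h0)).trans ?_
    rw [zk_im, zk_im]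
    have h2 : zk E k - zk E' k = ((E - E' : ℝ) : ℂ) := by
      rw [zk_eq, zk_eq]
      push_cast
      ring
    rw [h2, Complex.norm_real, Real.dist_eq, Real.norm_eq_abs]
    apply le_of_eq
    ring
  exact h1.continuous

theorem Gr_meas [Countable ι] (T : LL ι →L[ℂ] LL ι) (hT : Rs T) (lam : ℝ) (k : ℕ) (x y : ι) :
    Measurable (Function.uncurry fun (E : ℝ) (ω : ι → ℝ) => Gr (HH T lam ω) (zk E k) x y) := by
  apply measurable_uncurry_of_continuous_of_measurable
  · intro ω
    exact Gr_E_cont _ (HH_rs T hT lam ω) k x y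
  · intro E
    exact (Gr_HH_cont T hT lam (zk E k) x y (by rw [zk_im]; exact (ep_pos k).ne')).measurable

/-! ### the kernel -/

theorem row (T : LL ι →L[ℂ] LL ι) (hT : Rs T) (φ : LL ι) (x : ι) :
    T φ x = ∑' u, T (dv x) u * φ u := by
  rw [hT.bil (dv x) φ, ← tsum_dv' (fun u => T φ u) x]
  exact tsum_congr fun u => mul_comm _ _

theorem ker_symm (T : LL ι →L[ℂ] LL ι) (hT : Rs T) (x u : ι) : T (dv x) u = T (dv u) x := by
  rw [row T hT (dv u) x, tsum_dv' (fun w => T (dv x) w) u]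

/-! ### rank one perturbations -/

theorem rank_one (A A' : LL ι →L[ℂ] LL ι) (hA : IsSelfAdjoint A) (hA' : IsSelfAdjoint A')
    (x : ι) (c : ℂ) (h : ∀ u : LL ι, A' u = A u + (c * u x) • dv x) (z : ℂ) (hz : z.im ≠ 0)
    (y : ι) : Gr A' z x y * (1 + c * Gr A z x x) = Gr A z x y := by
  obtain ⟨w, hw⟩ : ∃ w, w = Rz A' z (dv y) := ⟨_, rfl⟩
  have h1 : A' w - z • w = dv y := by rw [hw]; exact rz_eq _ hA' z hz _
  have h2 : A w - z • w = dv y - (c * w x) • dv x := by
    rw [← h1, h w]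
    abel
  have h3 := rz_uniq A hA z hz w _ h2
  rw [map_sub, map_smul] at h3
  have h4 : w x = Gr A z x y - c * w x * Gr A z x x := by
    conv_lhs => rw [h3]
    rfl
  have h5 : Gr A' z x y = w x := by rw [hw]; rfl
  rw [h5]
  linear_combination h4

open Classical in
theorem HH_update (T : LL ι →L[ℂ] LL ι) (lam : ℝ) (ω : ι → ℝ) (x : ι) (v : ℝ) (hv : |v| ≤ 1)
    (u : LL ι) : HH T lam (Function.update ω x v) u =
      HH T lam (Function.update ω x 0) u + (((lam * v : ℝ) : ℂ) * u x) • dv x := by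
  apply ll_ext
  intro w
  rw [add_coord, smul_coord, HH_apply, HH_apply]
  by_cases h : w = x
  · subst h
    rw [Function.update_self, Function.update_self, dv_self, mul_zero, clp_eq (B := lam) (x := 0) (by rw [abs_zero]; exact abs_nonneg lam), clp_eq]
    · push_cast
      ring
    · rw [abs_mul]
      exact mul_le_of_le_one_right (abs_nonneg _) hv
  · rw [Function.update_of_ne h, Function.update_of_ne h, dv_ne h]
    ring

end Pool.Agent.H121.Z987
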