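import Pool.Agent.H987.Z.StE
import Pool.Agent.H304.Z987.Green
import Pool.Graph.R_pool_sql_team_seeded_1acbe0a2.Y662.TR.Acs

/-! Sub-statements for Z-F4 (`S_loc`, localization on a countable set) of the project Z of helper987.
Route: fractional moments (Aizenman-Molchanov), Graf's bound of the second moment by a fractional
moment, and a Wiener type theorem; no boundary values, no Simon-Wolff criterion. -/

set_option autoImplicit false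

open scoped BigOperators InnerProductSpace Topology ENNReal
open Filter MeasureTheory

namespace Pool.Agent.H121.Z987

open Pool.Agent.Y662.TR (LL Cf Mw dv hu)
open Pool.Agent.TH369.AN (Rz)
open Pool.Agent.TH369.MU (SpM ep zk)
open Pool.Agent.H987.Z

/-- the weight `1 / (1 + E²)` -/
noncomputable def wt (E : ℝ) : ℝ := 1 / (1 + E ^ 2)

/-- the measure `dE / (1 + E²)`, a finite measure of total mass `π` -/
noncomputable def Q : Measure ℝ := volume.withDensity fun E => ENNReal.ofReal (wt E)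

/-- the part of the averaged second moment outside of the finite set `F` -/
noncomputable def Tl {ι : Type} (T : LL ι →L[ℂ] LL ι) (y : ι) (F : Finset ι) (k : ℕ) : ℝ≥0∞ :=
  ∫⁻ E, ∑' x : {x : ι // x ∉ F}, ENNReal.ofReal (ep k * ‖Gr T (zk E k) x y‖ ^ 2) ∂Q

/-- **L1 (decoupling inequality).** `μ` a probability measure on `[-1,1]` with density at most `D`.

Proof. Write `W(A) = ∫_A |v - β|^{-s} dμ`, `W = W(ℝ) < ∞` (`Im β ≠ 0`). It suffices to find `r ∈ (0,1)`,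
depending on `s, D` only, with `W({|v - α| < r}) ≤ W / 2` for all `α`, `β`: then
`∫ |v - α|^s |v - β|^{-s} dμ ≥ r^s W({|v - α| ≥ r}) ≥ r^s W / 2`, so `c = r^s / 2`.
(i) `|β| ≤ 2`: `W ≥ 3^{-s} ≥ 1/3` and `W({|v - α| < r}) ≤ ∫_{|v - Re β| < r} |v - Re β|^{-s} D dv +
r^{-s} μ({|v - Re α| < r}) ≤ 2 D r^{1-s}/(1-s) + r^{-s} 2 D r ≤ 4 D r^{1-s}/(1-s)`.
(ii) `|β| > 2`: on `[-1,1]` one has `|β|/2 ≤ |v - β| ≤ 3|β|/2`, so
`W({|v - α| < r}) ≤ (|β|/2)^{-s} 2 D r` and `W ≥ (3|β|/2)^{-s}`; the quotient is at most `6 D r`. -/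
def S_dec : Prop :=
  ∀ s D : ℝ, 0 < s → s < 1 → 0 < D → ∃ c : ℝ, 0 < c ∧
    ∀ (μ : Measure ℝ) [IsProbabilityMeasure μ], (∀ᵐ v ∂μ, |v| ≤ 1) →
      (∀ A : Set ℝ, MeasurableSet A → μ A ≤ ENNReal.ofReal D * volume A) →
      ∀ α β : ℂ, β.im ≠ 0 →
        ENNReal.ofReal c * ∫⁻ v : ℝ, ENNReal.ofReal (‖(v : ℂ) - β‖ ^ (-s)) ∂μ ≤
          ∫⁻ v : ℝ, ENNReal.ofReal (‖(v : ℂ) - α‖ ^ s * ‖(v : ℂ) - β‖ ^ (-s)) ∂μ

/-- **L2 (Graf's bound of the second moment, one variable).**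

Proof. `X(v) = g / (1 + lam v a)`. (a) `∫ ε |X|² dμ ≤ D ∫_ℝ ε |g|² / |1 + lam v a|² dv
= D ε |g|² π / (lam Im a) ≤ π D / lam` (`|1 + lam v a|² = lam² |a|² |v + 1/(lam a)|²`,
`|Im (1/(lam a))| = Im a / (lam |a|²)`, `P_integral` in `R_seed8/W883/LL/Pole.lean`).
(b) `|1 + lam v a| ≤ 1 + lam |a|` on `[-1,1]`, so `∫ |X|^s dμ ≥ |g|^s / (1 + lam |a|)^s`.
Case 1, `lam |a| ≤ 1/2`: then `|X| ≤ 2 |g|` on `[-1,1]`; if `|g| ≤ 1` then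
`∫ ε |X|² dμ ≤ 4 |g|² ≤ 4 |g|^s`, if `|g| > 1` then `∫ ε |X|² dμ ≤ π D / lam ≤ (π D / lam) |g|^s`; and
`(1 + lam |a|)^s ≤ 3/2`. Case 2, `lam |a| > 1/2`: by (a) `∫ ε |X|² dμ ≤ (π D / lam) R`,
`R = ε |g|² / Im a ≤ min (1, |g|²/|a|²) ≤ (|g|/|a|)^s`, and `1 + lam |a| ≤ 3 lam |a|`. -/
def S_graf : Prop :=
  ∀ s D lam : ℝ, 0 < s → s < 1 → 0 < D → 0 < lam → ∃ C : ℝ, 0 < C ∧
    ∀ (μ : Measure ℝ) [IsProbabilityMeasure μ], (∀ᵐ v ∂μ, |v| ≤ 1) →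
      (∀ A : Set ℝ, MeasurableSet A → μ A ≤ ENNReal.ofReal D * volume A) →
      ∀ (a g : ℂ) (ε : ℝ), 0 < ε → ε ≤ 1 → 0 < a.im → ε * ‖g‖ ^ 2 ≤ a.im → ε * ‖a‖ ^ 2 ≤ a.im →
        ∫⁻ v : ℝ, ENNReal.ofReal (ε * ‖g / (1 + (lam : ℂ) * (v : ℂ) * a)‖ ^ 2) ∂μ ≤
          ENNReal.ofReal C *
            ∫⁻ v : ℝ, ENNReal.ofReal (‖g / (1 + (lam : ℂ) * (v : ℂ) * a)‖ ^ s) ∂μ

/-- **L3 (a Wiener type theorem).** If the averaged second moments are tight then the spectral measure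
`m` of `dv y` is carried by a countable set, namely by the set `A` of its atoms.

Proof. Notation: `ε = ep k`, `z = zk E k = E + i ε`, `G_x = Gr T z x y`, `F_m(z) = ∫ (t - z)⁻¹ dm(t)`,
`P_ε(t, E) = ε / ((E - t)² + ε²)` (`P t ε E` of `R_seed8/W883/LL/Pole.lean`: `P_integral`, `P_cauchy`;
`Po m E ε = ∫ P_ε dm`, `qk_po` of `Y662/TR/Acs.lean`).
(1) `∑_x ε |G_x|² = ε ‖Rz T z (dv y)‖² = Po m E ε`, and
`∫ Po m E ε dQ(E) = ∫ (∫ P_ε(t,E) dQ(E)) dm(t) = π ∫ (1 + ε)/(t² + (1 + ε)²) dm(t) → π ∫ wt dm` (take the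
imaginary part of `P_cauchy` with `z = i`; Fubini, dominated convergence).
(2) For finite measures `m₁, m₂`: `ε ∫ F_{m₁}(z) conj(F_{m₂}(z)) dQ(E) = ∫∫ κ_ε(t,t') dm₁(t) dm₂(t')`,
`κ_ε(t,t') = ε ∫ (t - z)⁻¹ conj((t' - z)⁻¹) dQ(E)` (Fubini, everything is bounded by `1/ε²`), and this
tends to `π ∫∫ 1_{t = t'} wt(t) dm₁ dm₂` by dominated convergence: `|κ_ε| ≤ π`
(`|u v| ≤ (|u|² + |v|²)/2` and `ε |t - z|⁻² = P_ε(t,E)`, `Q ≤ volume`), `κ_ε(t,t) → π wt(t)` as in (1), and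
for `t ≠ t'`: `|t - z|⁻¹ |t' - z|⁻¹ ≤ |t - t'|⁻¹ (|t - z|⁻¹ + |t' - z|⁻¹)`,
`|t - z|⁻¹ ≤ (√ε |t - z|⁻² + 1/√ε)/2`, hence `|κ_ε(t,t')| ≤ 2 π √ε / |t - t'| → 0`.
(3) Let `m_±` be the spectral measures of `dv x ± dv y` (`spm_mass` or `spm_exists`). As `G` is symmetric
(`Gr_symm`), `4 G_x = F_{m_+} - F_{m_-}`. By (2) `ε ∫ |G_x|² dQ` converges to
`π ∑_{t ∈ A'} wt(t) n_x(t)²`, `n_x(t) = (m_+{t} - m_-{t})/4`, `A'` a countable set which contains the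
atoms of all the measures.
(4) `-i ε F_m(t + i ε) → m{t}` (dominated convergence). Hence
`∑_{x ∈ F} n_x(t)² = lim ε² ∑_{x ∈ F} |G_x(t + i ε)|² ≤ lim ε² ‖Rz T (t + iε) (dv y)‖² = lim ε Im F_m(t + iε)
= m{t}`.
(5) So `lim_k ∑_{x ∈ F} ε ∫ |G_x|² dQ ≤ π ∫_{A'} wt dm` and, by (1), `liminf_k Tl T y F k ≥
π ∫ wt dm - π ∫_{A'} wt dm = π ∫_{A'ᶜ} wt dm = π ∫_{Aᶜ} wt dm`, `A` the set of atoms of `m`. This is `≤ δ`
for all `δ > 0`, so it vanishes and `m Aᶜ = 0` as `wt > 0`. -/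
def S_wien : Prop :=
  ∀ (ι : Type) [Countable ι] (T : LL ι →L[ℂ] LL ι), Rs T → ∀ y : ι,
    (∀ δ : ℝ≥0∞, 0 < δ → ∃ F : Finset ι, liminf (fun k => Tl T y F k) atTop ≤ δ) →
    ∀ m : Measure ℝ, SpM T (dv y) m → ∃ A : Set ℝ, A.Countable ∧ m Aᶜ = 0

/-- **L4 (from the sites to all vectors).**

Proof. Let `A` be the union of the countable sets of all the sites. (1) A finite measure on `ℝ` is
determined by `z ↦ ∫ (t - z)⁻¹ dm(t)` (the library may have it; or by Poisson integrals: `Po_im`,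
`open_le` etc.). (2) By the parallelogram identity for `φ ↦ ⟪φ, Rz T z φ⟫` and (1):
`m_{φ+ψ} + m_{φ-ψ} = 2 m_φ + 2 m_ψ`, so `m_{φ+ψ} ≤ 2 m_φ + 2 m_ψ`; `m_{cφ} = |c|² m_φ`;
`m_φ(ℝ) = ‖φ‖²` (`spm_exists`, (1)). (3) So `m_ψ(Aᶜ) = 0` for all finite linear combinations `ψ` of the
`dv x` and `m_φ(Aᶜ) ≤ 2 m_{φ-ψ}(Aᶜ) + 2 m_ψ(Aᶜ) ≤ 2 ‖φ - ψ‖²` (`approx` in `Y662/TR/Acs.lean`). Compare
`all_vec` in `Y662/TR/Acs.lean` (the same for absolutely continuous spectrum). -/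
def S_clos : Prop :=
  ∀ (ι : Type) [Countable ι] (T : LL ι →L[ℂ] LL ι), IsSelfAdjoint T →
    (∀ y : ι, ∃ (m : Measure ℝ) (A : Set ℝ), SpM T (dv y) m ∧ A.Countable ∧ m Aᶜ = 0) →
    ∀ (φ : LL ι) (m : Measure ℝ), SpM T φ m → ∃ A : Set ℝ, A.Countable ∧ m Aᶜ = 0

end Pool.Agent.H121.Z987
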